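import Pool.Agent.X127.MMPP.Table
import Pool.Agent.H990R2.CT

set_option autoImplicit false

open Finset Matrix

namespace Pool.Agent.Results.MP_af8c33_pr.FirstEventTimes

noncomputable section

/-- Data of a Markov-modulated Poisson process of order `p`: an irreducible generator `Q` with
stationary distribution `π`, and rates `lam i ≥ 0`, not all zero. -/
structure MMPP (p : ℕ) where
  Q : Matrix (Fin p) (Fin p) ℝ
  lam : Fin p → ℝ
  π : Fin p → ℝ
  rate_nonneg : ∀ i j, i ≠ j → 0 ≤ Q i j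
  row_zero : ∀ i, ∑ j, Q i j = 0
  irreducible : ∀ i j, Relation.ReflTransGen (fun a b => a ≠ b ∧ 0 < Q a b) i j
  lam_nonneg : ∀ i, 0 ≤ lam i
  lam_ne : ∃ i, lam i ≠ 0
  pi_nonneg : ∀ i, 0 ≤ π i
  pi_sum : ∑ i, π i = 1
  stationary : ∀ j, ∑ i, π i * Q i j = 0

namespace MMPP

variable {p : ℕ} (X : MMPP p)

/-- `C = Q - D` with `D = diag(lam)`. -/
def C : Matrix (Fin p) (Fin p) ℝ := X.Q - Matrix.diagonal X.lam

/-- The event-stationary initial law `α = π D / (π D 1)`. -/
def alpha (i : Fin p) : ℝ := X.π i * X.lam i / ∑ j, X.π j * X.lam j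

/-- `P(T_1 > t) = η e^{Ct} 1`. -/
def surv (η : Fin p → ℝ) (t : ℝ) : ℝ :=
  ∑ i, η i * ∑ j, (NormedSpace.exp (t • X.C)) i j

/-- `π C 1`. -/
def piC1 : ℝ := ∑ i, X.π i * ∑ j, X.C i j

/-- `π C⁻¹ 1`. -/
def piCinv1 : ℝ := ∑ i, X.π i * ∑ j, X.C⁻¹ i j

/-- The squared coefficient of variation, `c² = 2 (π C 1)(π C⁻¹ 1) - 1`. -/
def csq : ℝ := 2 * (X.piC1 * X.piCinv1) - 1

theorem C_mulVec (v : Fin p → ℝ) (i : Fin p) :
    X.C.mulVec v i = ∑ j, X.Q i j * v j - X.lam i * v i := by
  rw [C, Matrix.sub_mulVec]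
  simp [Matrix.mulVec, dotProduct, Matrix.diagonal_apply]

theorem Q_diff (v : Fin p → ℝ) (i : Fin p) :
    ∑ j, X.Q i j * v j = ∑ j, X.Q i j * (v j - v i) := by
  simp only [mul_sub, sum_sub_distrib, ← sum_mul, X.row_zero, zero_mul, sub_zero]

theorem term_nonneg (v : Fin p → ℝ) (i : Fin p) (h : ∀ j, v i ≤ v j) (j : Fin p) :
    0 ≤ X.Q i j * (v j - v i) := by
  by_cases hij : i = j
  · subst hij; simp
  · exact mul_nonneg (X.rate_nonneg i j hij) (by linarith [h j])

/-- a vector with `(D - Q) v ≥ 0` whose minimum is at most zero vanishes ... -/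
theorem max_principle (v : Fin p → ℝ) (hv : ∀ i, X.C.mulVec v i ≤ 0) (i : Fin p) : 0 ≤ v i := by
  classical
  have hne : Nonempty (Fin p) := ⟨i⟩
  obtain ⟨z, hz⟩ := Finite.exists_min v
  by_contra hcon
  push Not at hcon
  have hzneg : v z < 0 := lt_of_le_of_lt (hz i) hcon
  -- at a minimiser all neighbours are minimisers and the rate vanishes
  have hloc : ∀ y, v y = v z → X.lam y = 0 ∧ ∀ w, y ≠ w → 0 < X.Q y w → v w = v z := by
    intro y hy
    have hmin : ∀ j, v y ≤ v j := fun j => by rw [hy]; exact hz j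
    have h1 := hv y
    rw [C_mulVec, Q_diff] at h1
    have h2 : 0 ≤ ∑ j, X.Q y j * (v j - v y) := sum_nonneg fun j _ => X.term_nonneg v y hmin j
    have h3 : X.lam y * v y ≤ 0 := by
      have := X.lam_nonneg y
      rw [hy]
      nlinarith
    have h4 : X.lam y * v y = 0 := by
      by_contra h5
      have : X.lam y * v y < 0 := lt_of_le_of_ne h3 h5
      linarith
    have h5 : X.lam y = 0 := by
      rcases mul_eq_zero.mp h4 with h | h
      · exact h
      · rw [hy] at h; linarith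
    refine ⟨h5, fun w hyw hq => ?_⟩
    have h6 : ∑ j, X.Q y j * (v j - v y) = 0 := le_antisymm (by linarith) h2
    have h7 := (sum_eq_zero_iff_of_nonneg fun j _ => X.term_nonneg v y hmin j).mp h6 w (mem_univ w)
    rcases mul_eq_zero.mp h7 with h | h
    · linarith
    · linarith
  have hall : ∀ y, v y = v z := by
    intro y
    induction X.irreducible z y with
    | refl => rfl
    | tail _ hbc ih => exact (hloc _ ih).2 _ hbc.1 hbc.2
  obtain ⟨k, hk⟩ := X.lam_ne
  exact hk (hloc k (hall k)).1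

theorem C_inj : Function.Injective X.C.mulVec := by
  intro u v huv
  have h1 : X.C.mulVec (u - v) = 0 := by rw [Matrix.mulVec_sub, huv, sub_self]
  have h2 : X.C.mulVec (v - u) = 0 := by rw [Matrix.mulVec_sub, huv, sub_self]
  ext i
  have h3 := X.max_principle (u - v) (fun j => by rw [h1]; simp) i
  have h4 := X.max_principle (v - u) (fun j => by rw [h2]; simp) i
  simp only [Pi.sub_apply] at h3 h4
  linarith

theorem C_unit : IsUnit X.C := by
  rw [← Matrix.mulVec_injective_iff_isUnit]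
  exact X.C_inj

/-- mean first event times `m = (-C)⁻¹ 1` -/
def m (i : Fin p) : ℝ := -∑ j, X.C⁻¹ i j

theorem m_eq (i : Fin p) : X.lam i * X.m i - ∑ j, X.Q i j * X.m j = 1 := by
  have hdet : IsUnit X.C.det := (Matrix.isUnit_iff_isUnit_det _).mp X.C_unit
  have h1 : X.m = fun i => -(X.C⁻¹.mulVec (fun _ => 1)) i := by
    ext i; simp [m, Matrix.mulVec, dotProduct]
  have h2 : X.C.mulVec X.m i = -1 := by
    have : X.m = -(X.C⁻¹.mulVec (fun _ => 1)) := by rw [h1]; rfl
    rw [this, Matrix.mulVec_neg, Matrix.mulVec_mulVec, Matrix.mul_nonsing_inv _ hdet,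
      Matrix.one_mulVec]
    rfl
  rw [C_mulVec] at h2
  linarith

theorem m_pos (i : Fin p) : 0 < X.m i := by
  have hne : Nonempty (Fin p) := ⟨i⟩
  obtain ⟨z, hz⟩ := Finite.exists_min X.m
  have h1 := X.m_eq z
  rw [Q_diff] at h1
  have h2 : 0 ≤ ∑ j, X.Q z j * (X.m j - X.m z) := sum_nonneg fun j _ => X.term_nonneg X.m z hz j
  have h3 : 1 ≤ X.lam z * X.m z := by linarith
  have h4 := X.lam_nonneg z
  have h5 : 0 < X.m z := by
    by_contra hcon
    push Not at hcon
    nlinarith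
  exact lt_of_lt_of_le h5 (hz i)

/-- Q2: `(π C 1)(π C⁻¹ 1) ≥ 1`. -/
theorem q2 : 1 ≤ X.piC1 * X.piCinv1 := by
  have hm := X.m_pos
  have e1 : X.piC1 = -∑ i, X.π i * X.lam i := by
    rw [piC1, ← sum_neg_distrib]
    refine sum_congr rfl fun i _ => ?_
    have : ∑ j, X.C i j = -X.lam i := by
      have h := X.C_mulVec (fun _ => 1) i
      simp only [mul_one, X.row_zero, zero_sub] at h
      rw [← h]
      simp [Matrix.mulVec, dotProduct]
    rw [this]; ring
  have e2 : X.piCinv1 = -∑ i, X.π i * X.m i := by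
    rw [piCinv1, ← sum_neg_distrib]
    refine sum_congr rfl fun i _ => ?_
    rw [m]; ring
  rw [e1, e2, neg_mul_neg]
  -- the relative entropy argument
  have h1 : ∑ i, X.π i / X.m i ≤ ∑ i, X.π i * X.lam i := by
    have h2 : ∀ i, X.π i * X.lam i = X.π i / X.m i +
        X.π i * ∑ j, X.Q i j * (X.m j / X.m i - 1) := by
      intro i
      have h3 := X.m_eq i
      rw [Q_diff] at h3
      have h4 : ∑ j, X.Q i j * (X.m j / X.m i - 1) =
          (∑ j, X.Q i j * (X.m j - X.m i)) / X.m i := by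
        rw [sum_div]
        refine sum_congr rfl fun j _ => ?_
        have := (hm i).ne'
        field_simp
      rw [h4]
      have h5 : X.lam i = (1 + ∑ j, X.Q i j * (X.m j - X.m i)) / X.m i := by
        rw [eq_div_iff (hm i).ne']
        linarith
      rw [h5]
      ring
    have h6 : ∀ i, X.π i / X.m i + X.π i * ∑ j, X.Q i j * (Real.log (X.m j) - Real.log (X.m i)) ≤
        X.π i * X.lam i := by
      intro i
      rw [h2 i]
      have h7 : ∑ j, X.Q i j * (Real.log (X.m j) - Real.log (X.m i)) ≤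
          ∑ j, X.Q i j * (X.m j / X.m i - 1) := by
        refine sum_le_sum fun j _ => ?_
        by_cases hij : i = j
        · subst hij
          rw [div_self (hm i).ne']
          simp
        · apply mul_le_mul_of_nonneg_left _ (X.rate_nonneg i j hij)
          have := Real.log_le_sub_one_of_pos (div_pos (hm j) (hm i))
          rwa [Real.log_div (hm j).ne' (hm i).ne'] at this
      have := mul_le_mul_of_nonneg_left h7 (X.pi_nonneg i)
      linarith
    have h8 := sum_le_sum fun i (_ : i ∈ (univ : Finset (Fin p))) => h6 i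
    rw [sum_add_distrib] at h8
    have h9 : ∑ i, X.π i * ∑ j, X.Q i j * (Real.log (X.m j) - Real.log (X.m i)) = 0 := by
      have h10 : ∀ i, X.π i * ∑ j, X.Q i j * (Real.log (X.m j) - Real.log (X.m i)) =
          ∑ j, X.π i * X.Q i j * Real.log (X.m j) := by
        intro i
        rw [← X.Q_diff (fun j => Real.log (X.m j)), mul_sum]
        exact sum_congr rfl fun j _ => by ring
      simp only [h10]
      rw [sum_comm]
      refine sum_eq_zero fun j _ => ?_
      rw [← sum_mul, X.stationary, zero_mul]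
    rw [h9, add_zero] at h8
    exact h8
  have hcs : (∑ i, X.π i) ^ 2 ≤ (∑ i, X.π i / X.m i) * ∑ i, X.π i * X.m i := by
    refine sum_sq_le_sum_mul_sum_of_sq_eq_mul univ (fun i _ => div_nonneg (X.pi_nonneg i) (hm i).le)
      (fun i _ => mul_nonneg (X.pi_nonneg i) (hm i).le) (fun i _ => ?_)
    have := (hm i).ne'
    field_simp
  rw [X.pi_sum, one_pow] at hcs
  have h11 : 0 ≤ ∑ i, X.π i * X.m i :=
    sum_nonneg fun i _ => mul_nonneg (X.pi_nonneg i) (hm i).le
  exact hcs.trans (mul_le_mul_of_nonneg_right h1 h11)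

end MMPP

/-! ### The cyclic example -/

open Pool.Agent.X127.MMPP

/-- cyclic generator on sixteen states, rate two -/
def exQ : Matrix (Fin 16) (Fin 16) ℝ :=
  fun i j => (if j = i + 1 then 2 else 0) - (if j = i then 2 else 0)

/-- the first eight states have event rate one -/
def exLam (i : Fin 16) : ℝ := if (i : ℕ) < 8 then 1 else 0

theorem exQ_sum (i : Fin 16) (f : Fin 16 → ℝ) : ∑ j, exQ i j * f j = 2 * f (i + 1) - 2 * f i := by
  simp only [exQ, sub_mul, ite_mul, zero_mul, sum_sub_distrib]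
  rw [sum_ite_eq', sum_ite_eq']
  simp

theorem succ_ne (i : Fin 16) : i ≠ i + 1 := by
  revert i; decide

theorem reach (i j : Fin 16) : Relation.ReflTransGen (fun a b => a ≠ b ∧ 0 < exQ a b) i j := by
  have hstep : ∀ a : Fin 16, a ≠ a + 1 ∧ 0 < exQ a (a + 1) := by
    intro a
    refine ⟨succ_ne a, ?_⟩
    have h2 : ¬ (a + 1 = a) := fun h => succ_ne a h.symm
    simp [exQ]
  have hadd : ∀ n : ℕ, Relation.ReflTransGen (fun a b => a ≠ b ∧ 0 < exQ a b) i
      ((fun a : Fin 16 => a + 1)^[n] i) := by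
    intro n
    induction n with
    | zero => exact Relation.ReflTransGen.refl
    | succ n ih =>
      rw [Function.iterate_succ_apply']
      exact Relation.ReflTransGen.tail ih (hstep _)
  have hex : ∀ i j : Fin 16, ∃ n : Fin 16, (fun a : Fin 16 => a + 1)^[(n : ℕ)] i = j := by
    decide
  obtain ⟨n, hn⟩ := hex i j
  have h := hadd n
  rwa [hn] at h

/-- The example. -/
def ex : MMPP 16 where
  Q := exQ
  lam := exLam
  π := fun _ => 1 / 16
  rate_nonneg := by
    intro i j hij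
    have : ¬ (j = i) := fun h => hij h.symm
    simp only [exQ, if_neg this, sub_zero]
    split_ifs <;> norm_num
  row_zero := by
    intro i
    have := exQ_sum i (fun _ => 1)
    simpa using this
  irreducible := reach
  lam_nonneg := by intro i; unfold exLam; split_ifs <;> norm_num
  lam_ne := ⟨0, by simp [exLam]⟩
  pi_nonneg := by intro i; norm_num
  pi_sum := by simp
  stationary := by
    intro j
    rw [← mul_sum]
    have h1 : ∑ i, exQ i j = 0 := by
      have e1 : ∀ i : Fin 16, exQ i j = (if i = j - 1 then 2 else 0) - (if i = j then 2 else 0) := by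
        intro i
        have a0 : ∀ i j : Fin 16, (j = i + 1) ↔ (i = j - 1) := by decide
        have a1 := a0 i j
        have a2 : (j = i) ↔ (i = j) := eq_comm
        simp only [exQ, a1, a2]
      simp only [e1, sum_sub_distrib]
      rw [sum_ite_eq', sum_ite_eq']
      simp
    rw [h1, mul_zero]

/-- `A = C + 3` -/
def exA : Matrix (Fin 16) (Fin 16) ℝ := ex.C + (3 : ℝ) • 1

theorem exA_mulVec (v : Fin 16 → ℝ) (i : Fin 16) :
    exA.mulVec v i = 2 * v (i + 1) + (if (i : ℕ) < 8 then 0 else 1) * v i := by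
  rw [exA, Matrix.add_mulVec, Pi.add_apply, MMPP.C_mulVec, Matrix.smul_mulVec, Matrix.one_mulVec]
  have h := exQ_sum i v
  change (∑ j, exQ i j * v j - exLam i * v i) + (3 : ℝ) * v i = _
  rw [h]
  unfold exLam
  split_ifs <;> ring

theorem exA_pow (n : ℕ) (i : Fin 16) : (exA ^ n).mulVec (fun _ => 1) i = (vZ n i : ℝ) := by
  induction n generalizing i with
  | zero => simp [vZ]
  | succ n ih =>
    rw [pow_succ', ← Matrix.mulVec_mulVec, exA_mulVec, ih, ih]
    change _ = ((stepZ (vZ n) i : ℤ) : ℝ)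
    unfold stepZ
    push_cast
    split_ifs <;> push_cast <;> ring

theorem vZ_bound (n : ℕ) (i : Fin 16) : 0 ≤ vZ n i ∧ vZ n i ≤ 3 ^ n := by
  induction n generalizing i with
  | zero => simp [vZ]
  | succ n ih =>
    change 0 ≤ stepZ (vZ n) i ∧ stepZ (vZ n) i ≤ 3 ^ (n + 1)
    have h1 := ih i
    have h2 := ih (i + 1)
    unfold stepZ
    rw [pow_succ]
    split_ifs <;> constructor <;> linarith [h1.1, h1.2, h2.1, h2.2]

theorem BZ_bound (n : ℕ) : (BZ n : ℝ) ≤ 8 * 3 ^ n := by
  have h : BZ n ≤ 8 * 3 ^ n := by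
    unfold BZ
    calc ∑ i : Fin 16, (if (i : ℕ) < 8 then -1 else 1) * vZ n i
        ≤ ∑ i : Fin 16, (if (i : ℕ) < 8 then 0 else 3 ^ n) := by
          refine sum_le_sum fun i _ => ?_
          have h1 := vZ_bound n i
          split_ifs
          · linarith [h1.1]
          · linarith [h1.2]
      _ = 8 * 3 ^ n := by
          simp [Fin.sum_univ_succ]
          ring
  exact_mod_cast h

/-- weights of the difference `16 (π - α)` -/
def wt (i : Fin 16) : ℝ := if (i : ℕ) < 8 then -1 else 1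

theorem hasSum_diff (t : ℝ) :
    HasSum (fun n : ℕ => t ^ n / (n.factorial : ℝ) * (BZ n : ℝ))
      (∑ i, wt i * ∑ j, (NormedSpace.exp (t • exA)) i j) := by
  have h1 : ∀ i : Fin 16, HasSum (fun n : ℕ => wt i * ∑ j,
      ((n.factorial : ℝ)⁻¹ * ((t • exA) ^ n) i j)) (wt i * ∑ j, (NormedSpace.exp (t • exA)) i j) :=
    fun i => (hasSum_sum fun j _ => H990R2.CT.hasSum_exp_apply (t • exA) i j).mul_left (wt i)
  have h2 := hasSum_sum fun i (_ : i ∈ (univ : Finset (Fin 16))) => h1 i
  refine (H990R2.CT.hasSum_congr1 fun n => ?_).mpr h2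
  have h3 : ∀ i : Fin 16, ∑ j, ((n.factorial : ℝ)⁻¹ * ((t • exA) ^ n) i j) =
      t ^ n / (n.factorial : ℝ) * (vZ n i : ℝ) := by
    intro i
    rw [← exA_pow, smul_pow, ← mul_sum]
    simp only [Matrix.smul_apply, smul_eq_mul, ← mul_sum, Matrix.mulVec, dotProduct, mul_one]
    ring
  simp only [h3]
  unfold BZ wt
  push_cast
  rw [mul_sum]
  refine sum_congr rfl fun i _ => ?_
  split_ifs <;> push_cast <;> ring

theorem tail_term (n : ℕ) : (13 / 2 : ℝ) ^ (n + 37) / ((n + 37).factorial : ℝ) * (BZ (n + 37) : ℝ) ≤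
    8 * ((39 / 2) ^ 37 / (Nat.factorial 37 : ℝ)) * (39 / 76) ^ n := by
  have h1 := BZ_bound (n + 37)
  have h2 : (Nat.factorial 37 : ℝ) * 38 ^ n ≤ ((n + 37).factorial : ℝ) := by
    have := Nat.factorial_mul_pow_le_factorial (m := 37) (n := n)
    rw [add_comm 37 n] at this
    exact_mod_cast this
  have h3 : (0 : ℝ) < (Nat.factorial 37 : ℝ) * 38 ^ n := by
    have : (0 : ℝ) < (Nat.factorial 37 : ℝ) := by exact_mod_cast Nat.factorial_pos 37
    positivity
  have h4 : (0 : ℝ) < ((n + 37).factorial : ℝ) := lt_of_lt_of_le h3 h2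
  calc (13 / 2 : ℝ) ^ (n + 37) / ((n + 37).factorial : ℝ) * (BZ (n + 37) : ℝ)
      ≤ (13 / 2 : ℝ) ^ (n + 37) / ((n + 37).factorial : ℝ) * (8 * 3 ^ (n + 37)) :=
        mul_le_mul_of_nonneg_left h1 (by positivity)
    _ = 8 * ((39 / 2) ^ (n + 37) / ((n + 37).factorial : ℝ)) := by
        have : (39 / 2 : ℝ) = 13 / 2 * 3 := by norm_num
        rw [this, mul_pow]; ring
    _ ≤ 8 * ((39 / 2) ^ (n + 37) / ((Nat.factorial 37 : ℝ) * 38 ^ n)) := by
        apply mul_le_mul_of_nonneg_left _ (by norm_num)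
        exact div_le_div_of_nonneg_left (by positivity) h3 h2
    _ = 8 * ((39 / 2) ^ 37 / (Nat.factorial 37 : ℝ)) * (39 / 76) ^ n := by
        have e : (39 / 76 : ℝ) = 39 / 2 / 38 := by norm_num
        rw [e, div_pow (39 / 2) (38 : ℝ), pow_add]
        field_simp

theorem diff_neg : ∑ i, wt i * ∑ j, (NormedSpace.exp ((13 / 2 : ℝ) • exA)) i j < 0 := by
  have h := hasSum_diff (13 / 2)
  have h1 := h.summable.sum_add_tsum_nat_add 37
  rw [h.tsum_eq] at h1
  rw [← h1]
  have h2 : ∑' n : ℕ, ((13 / 2 : ℝ) ^ (n + 37) / ((n + 37).factorial : ℝ) * (BZ (n + 37) : ℝ)) ≤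
      8 * ((39 / 2) ^ 37 / (Nat.factorial 37 : ℝ)) * (1 - 39 / 76)⁻¹ := by
    have hg := (hasSum_geometric_of_lt_one (show (0 : ℝ) ≤ 39 / 76 by norm_num)
      (by norm_num)).mul_left (8 * ((39 / 2 : ℝ) ^ 37 / (Nat.factorial 37 : ℝ)))
    rw [← hg.tsum_eq]
    refine Summable.tsum_le_tsum tail_term ?_ hg.summable
    exact (summable_nat_add_iff 37).mpr h.summable
  have h3 : ∑ n ∈ range 37, (13 / 2 : ℝ) ^ n / (n.factorial : ℝ) * (BZ n : ℝ) +
      8 * ((39 / 2) ^ 37 / (Nat.factorial 37 : ℝ)) * (1 - 39 / 76)⁻¹ < 0 := by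
    simp only [sum_range_succ, sum_range_zero, B_0, B_1, B_2, B_3, B_4, B_5, B_6, B_7, B_8, B_9,
      B_10, B_11, B_12, B_13, B_14, B_15, B_16, B_17, B_18, B_19, B_20, B_21, B_22, B_23, B_24,
      B_25, B_26, B_27, B_28, B_29, B_30, B_31, B_32, B_33, B_34, B_35, B_36]
    norm_num [Nat.factorial]
  linarith

theorem exp_shift (t : ℝ) :
    NormedSpace.exp (t • exA) = Real.exp (3 * t) • NormedSpace.exp (t • ex.C) := by
  have h1 : t • exA = (3 * t) • (1 : Matrix (Fin 16) (Fin 16) ℝ) + t • ex.C := by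
    rw [exA, smul_add, smul_smul, mul_comm t 3, add_comm]
  rw [h1, Matrix.exp_add_of_commute, H990R2.CT.exp_scalar]
  · rw [smul_mul_assoc, one_mul]
  · exact (Commute.one_left _).smul_left _

/-- Q1 fails for the example at time `13/2`. -/
theorem q1 : ex.surv ex.π (13 / 2) < ex.surv ex.alpha (13 / 2) := by
  have h := diff_neg
  rw [exp_shift] at h
  set E := NormedSpace.exp ((13 / 2 : ℝ) • ex.C) with hE
  have h2 : ∑ i, wt i * ∑ j, (Real.exp (3 * (13 / 2)) • E) i j =
      Real.exp (3 * (13 / 2)) * ∑ i, wt i * ∑ j, E i j := by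
    simp only [Matrix.smul_apply, smul_eq_mul, ← mul_sum]
    rw [mul_sum]
    exact sum_congr rfl fun i _ => by ring
  rw [h2] at h
  have h3 : ∑ i, wt i * ∑ j, E i j < 0 := by
    by_contra hcon
    push Not at hcon
    have := mul_nonneg (Real.exp_pos (3 * (13 / 2))).le hcon
    linarith
  have h4 : ∑ j, ex.π j * ex.lam j = 1 / 2 := by
    change ∑ j : Fin 16, (1 / 16 : ℝ) * exLam j = 1 / 2
    rw [← mul_sum]
    have : ∑ j : Fin 16, exLam j = 8 := by
      have hc : (Finset.univ.filter (fun x : Fin 16 => (x : ℕ) < 8)).card = 8 := by decide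
      simp [exLam, hc]
    rw [this]; norm_num
  have h5 : ∀ i, ex.alpha i = (1 / 8) * exLam i := by
    intro i
    rw [MMPP.alpha, h4]
    change (1 / 16 : ℝ) * exLam i / (1 / 2) = _
    ring
  have h6 : ex.surv ex.π (13 / 2) - ex.surv ex.alpha (13 / 2) =
      (1 / 16) * ∑ i, wt i * ∑ j, E i j := by
    unfold MMPP.surv
    rw [← sum_sub_distrib, mul_sum]
    refine sum_congr rfl fun i _ => ?_
    rw [h5, ← hE]
    change (1 / 16 : ℝ) * _ - _ = _
    unfold exLam wt
    split_ifs <;> ring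
  linarith

end

/-- Q1 is false: there are an MMPP (of order sixteen) and a time `t ≥ 0` with
`P(T_1^π > t) < P(T_1^α > t)`. Q2 is true: for every MMPP the matrix `C` is nonsingular,
`(π C 1)(π C⁻¹ 1) ≥ 1`, and `c² ≥ 1`. -/
theorem result :
    (∃ (p : ℕ) (X : MMPP p) (t : ℝ), 0 ≤ t ∧ X.surv X.π t < X.surv X.alpha t) ∧
    (∀ (p : ℕ) (X : MMPP p), IsUnit X.C ∧ 1 ≤ X.piC1 * X.piCinv1 ∧ 1 ≤ X.csq) := by
  refine ⟨⟨16, ex, 13 / 2, by norm_num, q1⟩, fun p X => ⟨X.C_unit, X.q2, ?_⟩⟩
  have := X.q2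
  unfold MMPP.csq
  linarith

end Pool.Agent.Results.MP_af8c33_pr.FirstEventTimes
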